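import Pool.Agent.H19.Kiss.Deform

/-!
# Kissing configurations: definitions and basic facts
-/

set_option autoImplicit false

namespace Pool.Agent.H19.Kiss

open Finset Filter Topology

/-- A kissing configuration: unit vectors with pairwise inner products at most `1/2`. -/
def IsKissing {n : ℕ} (X : Finset (EuclideanSpace ℝ (Fin n))) : Prop :=
  (∀ x ∈ X, ‖x‖ = 1) ∧ ∀ x ∈ X, ∀ y ∈ X, x ≠ y → inner ℝ x y ≤ (1 / 2 : ℝ)

/-- All inner products of distinct points are `< 1/2`. -/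
def ContactFree {n : ℕ} (X : Finset (EuclideanSpace ℝ (Fin n))) : Prop :=
  ∀ x ∈ X, ∀ y ∈ X, x ≠ y → inner ℝ x y < (1 / 2 : ℝ)

/-- The kissing number. -/
noncomputable def tau (n : ℕ) : ℕ :=
  sSup {m | ∃ X : Finset (EuclideanSpace ℝ (Fin n)), IsKissing X ∧ X.card = m}

/-- The largest size of a contact-free kissing configuration. -/
noncomputable def tau0 (n : ℕ) : ℕ :=
  sSup {m | ∃ X : Finset (EuclideanSpace ℝ (Fin n)), IsKissing X ∧ ContactFree X ∧ X.card = m}

/-- All points of `X` can be moved, by less than any given `ε > 0`, to distinct points which form a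
contact-free kissing configuration. -/
def CanBeFreed {n : ℕ} (X : Finset (EuclideanSpace ℝ (Fin n))) : Prop :=
  ∀ ε : ℝ, 0 < ε → ∃ f : EuclideanSpace ℝ (Fin n) → EuclideanSpace ℝ (Fin n),
    (∀ x ∈ X, ‖f x - x‖ < ε) ∧ (X.image f).card = X.card ∧ IsKissing (X.image f) ∧
      ContactFree (X.image f)

/-! ### Basic facts -/

theorem exists_bound (n : ℕ) : ∃ N : ℕ, ∀ X : Finset (EuclideanSpace ℝ (Fin n)),
    IsKissing X → X.card ≤ N := by
  classical
  have htb : TotallyBounded (Metric.closedBall (0 : EuclideanSpace ℝ (Fin n)) 1) :=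
    (isCompact_closedBall 0 1).totallyBounded
  obtain ⟨t, htfin, hcov⟩ := Metric.totallyBounded_iff.mp htb (1 / 2) (by norm_num)
  refine ⟨htfin.toFinset.card, fun X hX => ?_⟩
  have hc : ∀ x ∈ X, ∃ c ∈ t, x ∈ Metric.ball c (1 / 2) := by
    intro x hx
    have : x ∈ Metric.closedBall (0 : EuclideanSpace ℝ (Fin n)) 1 := by
      rw [mem_closedBall_zero_iff, hX.1 x hx]
    have := hcov this
    simpa only [Set.mem_iUnion, exists_prop] using this
  choose! c hc1 hc2 using hc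
  refine card_le_card_of_injOn c (fun x hx => htfin.mem_toFinset.mpr (hc1 x hx)) ?_
  intro x hx y hy hxy
  by_contra hne
  have h1 : dist x y < 1 := by
    have h2 := Metric.mem_ball.mp (hc2 x hx)
    have h3 := Metric.mem_ball.mp (hc2 y hy)
    rw [← hxy] at h3
    have := dist_triangle_right x y (c x)
    linarith
  have h4 := hX.2 x hx y hy hne
  have h5 : ‖x - y‖ ^ 2 = 2 - 2 * inner ℝ x y := by
    rw [norm_sub_sq_real, hX.1 x hx, hX.1 y hy]
    ring
  rw [dist_eq_norm] at h1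
  nlinarith [norm_nonneg (x - y)]

theorem bdd (n : ℕ) : BddAbove {m | ∃ X : Finset (EuclideanSpace ℝ (Fin n)),
    IsKissing X ∧ X.card = m} := by
  obtain ⟨N, hN⟩ := exists_bound n
  exact ⟨N, by rintro _ ⟨X, hX, rfl⟩; exact hN X hX⟩

theorem bdd0 (n : ℕ) : BddAbove {m | ∃ X : Finset (EuclideanSpace ℝ (Fin n)),
    IsKissing X ∧ ContactFree X ∧ X.card = m} := by
  obtain ⟨N, hN⟩ := exists_bound n
  exact ⟨N, by rintro _ ⟨X, hX, -, rfl⟩; exact hN X hX⟩

theorem card_le_tau {n : ℕ} {X : Finset (EuclideanSpace ℝ (Fin n))} (hX : IsKissing X) :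
    X.card ≤ tau n := le_csSup (bdd n) ⟨X, hX, rfl⟩

theorem card_le_tau0 {n : ℕ} {X : Finset (EuclideanSpace ℝ (Fin n))} (hX : IsKissing X)
    (hc : ContactFree X) : X.card ≤ tau0 n := le_csSup (bdd0 n) ⟨X, hX, hc, rfl⟩

theorem exists_tau (n : ℕ) : ∃ X : Finset (EuclideanSpace ℝ (Fin n)),
    IsKissing X ∧ X.card = tau n := by
  have h : sSup {m | ∃ X : Finset (EuclideanSpace ℝ (Fin n)), IsKissing X ∧ X.card = m} ∈
      {m | ∃ X : Finset (EuclideanSpace ℝ (Fin n)), IsKissing X ∧ X.card = m} :=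
    Nat.sSup_mem ⟨0, ∅, ⟨by simp, by simp⟩, by simp⟩ (bdd n)
  exact h

theorem exists_tau0 (n : ℕ) : ∃ X : Finset (EuclideanSpace ℝ (Fin n)),
    IsKissing X ∧ ContactFree X ∧ X.card = tau0 n := by
  have h : sSup {m | ∃ X : Finset (EuclideanSpace ℝ (Fin n)),
        IsKissing X ∧ ContactFree X ∧ X.card = m} ∈
      {m | ∃ X : Finset (EuclideanSpace ℝ (Fin n)), IsKissing X ∧ ContactFree X ∧ X.card = m} :=
    Nat.sSup_mem ⟨0, ∅, ⟨by simp, by simp⟩, by intro x hx; simp at hx, by simp⟩ (bdd0 n)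
  exact h

theorem tau0_le_tau (n : ℕ) : tau0 n ≤ tau n := by
  obtain ⟨X, hX, -, hc⟩ := exists_tau0 n
  rw [← hc]
  exact card_le_tau hX

theorem freed_of {n : ℕ} {X : Finset (EuclideanSpace ℝ (Fin n))}
    (h : ∀ ε : ℝ, 0 < ε → ∃ f : EuclideanSpace ℝ (Fin n) → EuclideanSpace ℝ (Fin n),
      (∀ x ∈ X, ‖f x‖ = 1 ∧ ‖f x - x‖ < ε) ∧
      ∀ x ∈ X, ∀ y ∈ X, x ≠ y → inner ℝ (f x) (f y) < (1 / 2 : ℝ)) : CanBeFreed X := by
  classical
  intro ε hε
  obtain ⟨f, hf1, hf2⟩ := h ε hε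
  have hinj : Set.InjOn f X := by
    intro x hx y hy hxy
    by_contra hne
    have h1 := hf2 x hx y hy hne
    rw [hxy, real_inner_self_eq_norm_sq, (hf1 y hy).1] at h1
    norm_num at h1
  have hcf : ContactFree (X.image f) := by
    intro a ha b hb hab
    obtain ⟨x, hx, rfl⟩ := mem_image.mp ha
    obtain ⟨y, hy, rfl⟩ := mem_image.mp hb
    exact hf2 x hx y hy (fun h => hab (by rw [h]))
  refine ⟨f, fun x hx => (hf1 x hx).2, card_image_of_injOn hinj, ⟨?_, ?_⟩, ?_⟩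
  · intro a ha
    obtain ⟨x, hx, rfl⟩ := mem_image.mp ha
    exact (hf1 x hx).1
  · intro a ha b hb hab
    refine (hcf a ?_ b ?_ hab).le
    · convert ha
    · convert hb
  · convert hcf

theorem card_le_of_freed {n : ℕ} {X : Finset (EuclideanSpace ℝ (Fin n))} (h : CanBeFreed X) :
    X.card ≤ tau0 n := by
  obtain ⟨f, -, h1, h2, h3⟩ := h 1 one_pos
  rw [← h1]
  exact card_le_tau0 h2 h3

end Pool.Agent.H19.Kiss
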