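import Mathlib

set_option autoImplicit false

namespace Pool.Agent.H19.Kiss

open Filter Topology Finset

variable {E : Type*} [NormedAddCommGroup E] [InnerProductSpace ℝ E]

/-- General deformation principle: points moving along curves `g x t` (not normalised) that open
every contact for small `t > 0`. -/
theorem deform (X : Finset E) (h1 : ∀ x ∈ X, ‖x‖ = 1)
    (h2 : ∀ x ∈ X, ∀ y ∈ X, x ≠ y → inner ℝ x y ≤ (1 / 2 : ℝ))
    (g : E → ℝ → E) (hg : ∀ x ∈ X, Tendsto (g x) (𝓝[>] 0) (𝓝 x))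
    (hc : ∀ x ∈ X, ∀ y ∈ X, x ≠ y → inner ℝ x y = (1 / 2 : ℝ) →
      ∀ᶠ t in 𝓝[>] (0 : ℝ), (2 * inner ℝ (g x t) (g y t)) ^ 2 < ‖g x t‖ ^ 2 * ‖g y t‖ ^ 2)
    (ε : ℝ) (hε : 0 < ε) :
    ∃ f : E → E, (∀ x ∈ X, ‖f x‖ = 1 ∧ ‖f x - x‖ < ε) ∧
      ∀ x ∈ X, ∀ y ∈ X, x ≠ y → inner ℝ (f x) (f y) < (1 / 2 : ℝ) := by
  classical
  have hf : ∀ x ∈ X, Tendsto (fun t => (‖g x t‖)⁻¹ • g x t) (𝓝[>] 0) (𝓝 x) := by
    intro x hx
    have h := (hg x hx).norm.inv₀ (by rw [h1 x hx]; norm_num)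
    have h' := h.smul (hg x hx)
    rwa [h1 x hx, inv_one, one_smul] at h'
  have hne : ∀ x ∈ X, ∀ᶠ t in 𝓝[>] (0 : ℝ), g x t ≠ 0 := by
    intro x hx
    have hx0 : x ≠ 0 := by
      intro h
      have := h1 x hx
      rw [h, norm_zero] at this
      norm_num at this
    exact (hg x hx).eventually_ne hx0
  have hnear : ∀ x ∈ X, ∀ᶠ t in 𝓝[>] (0 : ℝ), ‖(‖g x t‖)⁻¹ • g x t - x‖ < ε := by
    intro x hx
    have h := (hf x hx).sub_const x
    rw [sub_self] at h
    have h' := h.norm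
    rw [norm_zero] at h'
    exact h'.eventually_lt_const hε
  have hpair : ∀ x ∈ X, ∀ y ∈ X, x ≠ y → ∀ᶠ t in 𝓝[>] (0 : ℝ),
      inner ℝ ((‖g x t‖)⁻¹ • g x t) ((‖g y t‖)⁻¹ • g y t) < (1 / 2 : ℝ) := by
    intro x hx y hy hxy
    rcases lt_or_eq_of_le (h2 x hx y hy hxy) with hlt | heq
    · exact ((hf x hx).inner (hf y hy)).eventually_lt_const hlt
    · filter_upwards [hc x hx y hy hxy heq, hne x hx, hne y hy] with t ht hx0 hy0
      have hxp : 0 < ‖g x t‖ := norm_pos_iff.mpr hx0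
      have hyp : 0 < ‖g y t‖ := norm_pos_iff.mpr hy0
      rw [real_inner_smul_left, real_inner_smul_right]
      have h3 : 2 * inner ℝ (g x t) (g y t) < ‖g x t‖ * ‖g y t‖ := by
        rw [← mul_pow] at ht
        exact lt_of_pow_lt_pow_left₀ 2 (by positivity) ht
      have h4 : (‖g x t‖)⁻¹ * ((‖g y t‖)⁻¹ * inner ℝ (g x t) (g y t)) =
          inner ℝ (g x t) (g y t) / (‖g x t‖ * ‖g y t‖) := by
        field_simp
      rw [h4, div_lt_div_iff₀ (by positivity) (by norm_num)]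
      linarith
  have hall : ∀ᶠ t in 𝓝[>] (0 : ℝ), (∀ x ∈ X, g x t ≠ 0) ∧
      (∀ x ∈ X, ‖(‖g x t‖)⁻¹ • g x t - x‖ < ε) ∧
      ∀ x ∈ X, ∀ y ∈ X, x ≠ y →
        inner ℝ ((‖g x t‖)⁻¹ • g x t) ((‖g y t‖)⁻¹ • g y t) < (1 / 2 : ℝ) := by
    refine ((eventually_all_finset X).mpr hne).and (((eventually_all_finset X).mpr hnear).and ?_)
    refine (eventually_all_finset X).mpr fun x hx => (eventually_all_finset X).mpr fun y hy => ?_
    by_cases hxy : x = y
    · exact Eventually.of_forall fun t h => absurd hxy h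
    · filter_upwards [hpair x hx y hy hxy] with t ht _ using ht
  obtain ⟨t, ht1, ht2, ht3⟩ := hall.exists
  refine ⟨fun x => (‖g x t‖)⁻¹ • g x t, fun x hx => ⟨?_, ht2 x hx⟩, ht3⟩
  rw [norm_smul, norm_inv, norm_norm, inv_mul_cancel₀ (norm_ne_zero_iff.mpr (ht1 x hx))]

theorem pair_iff (x y P : E) (hx : ‖x‖ = 1) (hy : ‖y‖ = 1) (hP1 : ‖P‖ = 1)
    (hxy : inner ℝ x y = (1 / 2 : ℝ)) (a b : ℝ) :
    (2 * inner ℝ (x - a • P) (y - b • P)) ^ 2 < ‖x - a • P‖ ^ 2 * ‖y - b • P‖ ^ 2 ↔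
      0 < (1 - 2 * a * inner ℝ P x + a ^ 2) * (1 - 2 * b * inner ℝ P y + b ^ 2) -
        (1 - 2 * b * inner ℝ P x - 2 * a * inner ℝ P y + 2 * a * b) ^ 2 := by
  have e1 : inner ℝ (x - a • P) (y - b • P) =
      1 / 2 - b * inner ℝ P x - a * inner ℝ P y + a * b := by
    rw [inner_sub_left, inner_sub_right, inner_sub_right, real_inner_smul_left,
      real_inner_smul_right, real_inner_smul_left, real_inner_smul_right,
      real_inner_self_eq_norm_sq, hP1, hxy, real_inner_comm P x]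
    ring
  have e2 : ‖x - a • P‖ ^ 2 = 1 - 2 * a * inner ℝ P x + a ^ 2 := by
    rw [norm_sub_sq_real, hx, real_inner_smul_right, norm_smul, hP1, real_inner_comm P x,
      Real.norm_eq_abs, mul_one, sq_abs]
    ring
  have e3 : ‖y - b • P‖ ^ 2 = 1 - 2 * b * inner ℝ P y + b ^ 2 := by
    rw [norm_sub_sq_real, hy, real_inner_smul_right, norm_smul, hP1, real_inner_comm P y,
      Real.norm_eq_abs, mul_one, sq_abs]
    ring
  rw [e1, e2, e3, ← sub_pos]
  ring_nf

/-- Points whose contact components lie in closed hemispheres. -/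
theorem hemi (X : Finset E) (h1 : ∀ x ∈ X, ‖x‖ = 1)
    (h2 : ∀ x ∈ X, ∀ y ∈ X, x ≠ y → inner ℝ x y ≤ (1 / 2 : ℝ))
    (p : E → E) (hp0 : ∀ x ∈ X, p x ≠ 0) (hp : ∀ x ∈ X, 0 ≤ inner ℝ (p x) x)
    (hpc : ∀ x ∈ X, ∀ y ∈ X, inner ℝ x y = (1 / 2 : ℝ) → p x = p y)
    (ε : ℝ) (hε : 0 < ε) :
    ∃ f : E → E, (∀ x ∈ X, ‖f x‖ = 1 ∧ ‖f x - x‖ < ε) ∧
      ∀ x ∈ X, ∀ y ∈ X, x ≠ y → inner ℝ (f x) (f y) < (1 / 2 : ℝ) := by
  classical
  obtain ⟨idx, hidx⟩ := Set.countable_iff_exists_injOn.mp (X.countable_toSet)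
  set q : E → E := fun x => (‖p x‖)⁻¹ • p x with hq
  have hq1 : ∀ x ∈ X, ‖q x‖ = 1 := by
    intro x hx
    rw [hq]
    simp only
    rw [norm_smul, norm_inv, norm_norm, inv_mul_cancel₀ (norm_ne_zero_iff.mpr (hp0 x hx))]
  have hqh : ∀ x ∈ X, 0 ≤ inner ℝ (q x) x := by
    intro x hx
    rw [hq]
    simp only
    rw [real_inner_smul_left]
    exact mul_nonneg (by positivity) (hp x hx)
  have hqc : ∀ x ∈ X, ∀ y ∈ X, inner ℝ x y = (1 / 2 : ℝ) → q x = q y := by
    intro x hx y hy h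
    rw [hq]
    simp only
    rw [hpc x hx y hy h]
  set c : E → ℝ := fun x => 4 ^ idx x with hcdef
  have hcpos : ∀ x, 0 < c x := fun x => by rw [hcdef]; positivity
  set s : E → ℝ → ℝ := fun x t => if inner ℝ (q x) x = 0 then c x * t else t ^ 2 with hs
  have hst : ∀ x, Tendsto (s x) (𝓝[>] 0) (𝓝 0) := by
    intro x
    refine tendsto_nhdsWithin_of_tendsto_nhds ?_
    rw [hs]
    simp only
    split_ifs
    · have : Tendsto (fun t : ℝ => c x * t) (𝓝 0) (𝓝 (c x * 0)) := (continuous_const.mul continuous_id).tendsto 0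
      simpa using this
    · have : Tendsto (fun t : ℝ => t ^ 2) (𝓝 0) (𝓝 (0 ^ 2)) := (continuous_id.pow 2).tendsto 0
      simpa using this
  refine deform X h1 h2 (fun x t => x - s x t • q x) ?_ ?_ ε hε
  · intro x hx
    have := tendsto_const_nhds (x := x).sub ((hst x).smul_const (q x))
    simpa using this
  · intro x hx y hy hxy hxy2
    have hqq : q x = q y := hqc x hx y hy hxy2
    have hP1 : ‖q y‖ = 1 := hq1 y hy
    have hh0 : 0 ≤ inner ℝ (q y) x := by rw [← hqq]; exact hqh x hx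
    have hk0 : 0 ≤ inner ℝ (q y) y := hqh y hy
    have key0 := pair_iff x y (q y) (h1 x hx) (h1 y hy) hP1 hxy2
    have hsx0 : ∀ t, s x t = if inner ℝ (q y) x = 0 then c x * t else t ^ 2 := by
      intro t
      rw [hs]
      simp only
      rw [hqq]
    have hsy0 : ∀ t, s y t = if inner ℝ (q y) y = 0 then c y * t else t ^ 2 := fun t => rfl
    simp only [hqq]
    clear_value q s
    generalize q y = P at *
    generalize hh : inner ℝ P x = h at *
    generalize hk : inner ℝ P y = k at *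
    have hsx : ∀ t, s x t = if h = 0 then c x * t else t ^ 2 := hsx0
    have hsy : ∀ t, s y t = if k = 0 then c y * t else t ^ 2 := hsy0
    have key' : ∀ᶠ t in 𝓝[>] (0 : ℝ),
        0 < (1 - 2 * s x t * h + s x t ^ 2) * (1 - 2 * s y t * k + s y t ^ 2) -
          (1 - 2 * s y t * h - 2 * s x t * k + 2 * s x t * s y t) ^ 2 := by
      by_cases hz : h = 0
      · by_cases kz : k = 0
        · -- both on the boundary
          have hA : 0 < c x ^ 2 + c y ^ 2 - 4 * c x * c y := by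
            have hne : idx x ≠ idx y := fun he => hxy (hidx hx hy he)
            rcases lt_or_gt_of_ne hne with hlt | hlt
            · have h4 : 4 * c x ≤ c y := by
                rw [hcdef]
                simp only
                rw [← pow_succ']
                exact pow_le_pow_right₀ (by norm_num) hlt
              nlinarith [hcpos x, hcpos y]
            · have h4 : 4 * c y ≤ c x := by
                rw [hcdef]
                simp only
                rw [← pow_succ']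
                exact pow_le_pow_right₀ (by norm_num) hlt
              nlinarith [hcpos x, hcpos y]
          have hG : Tendsto (fun t : ℝ => (c x ^ 2 + c y ^ 2 - 4 * c x * c y) -
              3 * c x ^ 2 * c y ^ 2 * t ^ 2) (𝓝[>] 0) (𝓝 (c x ^ 2 + c y ^ 2 - 4 * c x * c y)) := by
            refine tendsto_nhdsWithin_of_tendsto_nhds ?_
            have : Continuous (fun t : ℝ => (c x ^ 2 + c y ^ 2 - 4 * c x * c y) -
              3 * c x ^ 2 * c y ^ 2 * t ^ 2) := by fun_prop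
            simpa using this.tendsto 0
          filter_upwards [hG.eventually_const_lt hA, self_mem_nhdsWithin] with t ht ht0
          rw [hsx, hsy, if_pos hz, if_pos kz, hz, kz]
          have ht0' : 0 < t := ht0
          have : (1 - 2 * (c x * t) * 0 + (c x * t) ^ 2) * (1 - 2 * (c y * t) * 0 + (c y * t) ^ 2) -
              (1 - 2 * (c y * t) * 0 - 2 * (c x * t) * 0 + 2 * (c x * t) * (c y * t)) ^ 2 =
              t ^ 2 * ((c x ^ 2 + c y ^ 2 - 4 * c x * c y) - 3 * c x ^ 2 * c y ^ 2 * t ^ 2) := by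
            ring
          rw [this]
          positivity
        · -- h = 0 < k
          have hkp : 0 < k := lt_of_le_of_ne hk0 (Ne.symm kz)
          have hA : 0 < 4 * c x * k := by have := hcpos x; positivity
          have hG : Tendsto (fun t : ℝ => 4 * c x * k + (t * (c x ^ 2 - 2 * k - 4 * c x ^ 2 * k ^ 2) -
              4 * c x * t ^ 2 + t ^ 3 * (1 + 6 * k * c x ^ 2) - 3 * c x ^ 2 * t ^ 5)) (𝓝[>] 0)
              (𝓝 (4 * c x * k)) := by
            refine tendsto_nhdsWithin_of_tendsto_nhds ?_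
            have : Continuous (fun t : ℝ => 4 * c x * k + (t * (c x ^ 2 - 2 * k - 4 * c x ^ 2 * k ^ 2) -
              4 * c x * t ^ 2 + t ^ 3 * (1 + 6 * k * c x ^ 2) - 3 * c x ^ 2 * t ^ 5)) := by fun_prop
            simpa using this.tendsto 0
          filter_upwards [hG.eventually_const_lt hA, self_mem_nhdsWithin] with t ht ht0
          rw [hsx, hsy, if_pos hz, if_neg kz, hz]
          have ht0' : 0 < t := ht0
          have : (1 - 2 * (c x * t) * 0 + (c x * t) ^ 2) * (1 - 2 * t ^ 2 * k + (t ^ 2) ^ 2) -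
              (1 - 2 * t ^ 2 * 0 - 2 * (c x * t) * k + 2 * (c x * t) * t ^ 2) ^ 2 =
              t * (4 * c x * k + (t * (c x ^ 2 - 2 * k - 4 * c x ^ 2 * k ^ 2) -
              4 * c x * t ^ 2 + t ^ 3 * (1 + 6 * k * c x ^ 2) - 3 * c x ^ 2 * t ^ 5)) := by
            ring
          rw [this]
          positivity
      · have hhp : 0 < h := lt_of_le_of_ne hh0 (Ne.symm hz)
        by_cases kz : k = 0
        · have hA : 0 < 4 * c y * h := by have := hcpos y; positivity
          have hG : Tendsto (fun t : ℝ => 4 * c y * h + (t * (c y ^ 2 - 2 * h - 4 * c y ^ 2 * h ^ 2) -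
              4 * c y * t ^ 2 + t ^ 3 * (1 + 6 * h * c y ^ 2) - 3 * c y ^ 2 * t ^ 5)) (𝓝[>] 0)
              (𝓝 (4 * c y * h)) := by
            refine tendsto_nhdsWithin_of_tendsto_nhds ?_
            have : Continuous (fun t : ℝ => 4 * c y * h + (t * (c y ^ 2 - 2 * h - 4 * c y ^ 2 * h ^ 2) -
              4 * c y * t ^ 2 + t ^ 3 * (1 + 6 * h * c y ^ 2) - 3 * c y ^ 2 * t ^ 5)) := by fun_prop
            simpa using this.tendsto 0
          filter_upwards [hG.eventually_const_lt hA, self_mem_nhdsWithin] with t ht ht0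
          rw [hsx, hsy, if_neg hz, if_pos kz, kz]
          have ht0' : 0 < t := ht0
          have : (1 - 2 * t ^ 2 * h + (t ^ 2) ^ 2) * (1 - 2 * (c y * t) * 0 + (c y * t) ^ 2) -
              (1 - 2 * (c y * t) * h - 2 * t ^ 2 * 0 + 2 * t ^ 2 * (c y * t)) ^ 2 =
              t * (4 * c y * h + (t * (c y ^ 2 - 2 * h - 4 * c y ^ 2 * h ^ 2) -
              4 * c y * t ^ 2 + t ^ 3 * (1 + 6 * h * c y ^ 2) - 3 * c y ^ 2 * t ^ 5)) := by
            ring
          rw [this]
          positivity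
        · have hkp : 0 < k := lt_of_le_of_ne hk0 (Ne.symm kz)
          have hA : 0 < 2 * (h + k) := by positivity
          have hG : Tendsto (fun t : ℝ => 2 * (h + k) + (t ^ 2 * (2 + 4 * h * k - 4 * (h + k) ^ 2 - 4) +
              6 * (h + k) * t ^ 4 - 3 * t ^ 6)) (𝓝[>] 0) (𝓝 (2 * (h + k))) := by
            refine tendsto_nhdsWithin_of_tendsto_nhds ?_
            have : Continuous (fun t : ℝ => 2 * (h + k) + (t ^ 2 * (2 + 4 * h * k - 4 * (h + k) ^ 2 - 4) +
              6 * (h + k) * t ^ 4 - 3 * t ^ 6)) := by fun_prop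
            simpa using this.tendsto 0
          filter_upwards [hG.eventually_const_lt hA, self_mem_nhdsWithin] with t ht ht0
          rw [hsx, hsy, if_neg hz, if_neg kz]
          have ht0' : 0 < t := ht0
          have : (1 - 2 * t ^ 2 * h + (t ^ 2) ^ 2) * (1 - 2 * t ^ 2 * k + (t ^ 2) ^ 2) -
              (1 - 2 * t ^ 2 * h - 2 * t ^ 2 * k + 2 * t ^ 2 * t ^ 2) ^ 2 =
              t ^ 2 * (2 * (h + k) + (t ^ 2 * (2 + 4 * h * k - 4 * (h + k) ^ 2 - 4) +
              6 * (h + k) * t ^ 4 - 3 * t ^ 6)) := by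
            ring
          rw [this]
          positivity
    filter_upwards [key'] with t ht using (key0 _ _).mpr ht

end Pool.Agent.H19.Kiss
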