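import Pool.Agent.H19.Kiss.Rankin

set_option autoImplicit false

namespace Pool.Agent.H19.Kiss

open Finset Filter Topology

/-- Rankin type bound: spherical codes of angle 60 degrees have at most `C β ^ n` points, for each
`β > √2`. -/
theorem rankin (β : ℝ) (hβ0 : 0 < β) (hβ : 2 < β ^ 2) (N : ℕ → ℕ)
    (hN : ∀ (n : ℕ) (X : Finset (EuclideanSpace ℝ (Fin n))), (∀ x ∈ X, ‖x‖ = 1) →
      (∀ x ∈ X, ∀ y ∈ X, x ≠ y → inner ℝ x y ≤ (1 / 2 : ℝ)) → X.card ≤ N n) :
    ∃ C : ℝ, 1 ≤ C ∧ ∀ (n : ℕ) (X : Finset (EuclideanSpace ℝ (Fin n))), (∀ x ∈ X, ‖x‖ = 1) →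
      (∀ x ∈ X, ∀ y ∈ X, x ≠ y → inner ℝ x y ≤ (1 / 2 : ℝ)) → (X.card : ℝ) ≤ C * β ^ n := by
  set ρ := √(1 / (β ^ 2 - 1)) with hρdef
  have hq : 1 < β ^ 2 - 1 := by linarith
  have hρ : 0 < ρ := Real.sqrt_pos.mpr (by positivity)
  have hρsq : ρ ^ 2 = 1 / (β ^ 2 - 1) := Real.sq_sqrt (by positivity)
  have hρ1' : ρ ^ 2 < 1 := by
    rw [hρsq, div_lt_one (by linarith)]
    exact hq
  have hρ1 : ρ < 1 := by
    have := (sq_lt_one_iff₀ hρ.le).mp hρ1'
    exact this
  have hR : √(1 + ρ ^ 2) = β * ρ := by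
    rw [show 1 + ρ ^ 2 = (β * ρ) ^ 2 by
      rw [mul_pow, hρsq]
      field_simp
      ring]
    exact Real.sqrt_sq (by positivity)
  set r' := √(ρ ^ 2 - ((1 - ρ ^ 2) / 4) ^ 2) with hr'
  have hr'0 : 0 ≤ r' := Real.sqrt_nonneg _
  have hr'ρ : r' < ρ := by
    rw [hr']
    rw [Real.sqrt_lt' hρ]
    have : 0 < ((1 - ρ ^ 2) / 4) ^ 2 := by
      have : 0 < (1 - ρ ^ 2) / 4 := by linarith
      positivity
    linarith
  set θ := r' / ρ with hθ
  have hθ0 : 0 ≤ θ := by positivity
  have hθ1 : θ < 1 := by rw [hθ, div_lt_one hρ]; exact hr'ρ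
  obtain ⟨K, hK⟩ := exists_nat_ge (2 / ((1 - ρ ^ 2) / 2))
  have hlim : Tendsto (fun n : ℕ => 2 * θ ^ n) atTop (𝓝 0) := by
    have := (tendsto_pow_atTop_nhds_zero_of_lt_one hθ0 hθ1).const_mul 2
    simpa using this
  obtain ⟨n1, hn1⟩ := (hlim.eventually_lt_const (by norm_num : (0 : ℝ) < 1 / 2)).exists_forall_of_atTop
  set M : ℕ := ∑ n ∈ range n1, N n with hM
  have hβ1 : 1 ≤ β := by nlinarith
  refine ⟨4 * K + M + 1, by have : (0:ℝ) ≤ 4 * K + M := by positivity
                            linarith, fun n X h1 h2 => ?_⟩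
  have hβn : 1 ≤ β ^ n := one_le_pow₀ hβ1
  by_cases hn : n < n1
  · have h3 : X.card ≤ M := (hN n X h1 h2).trans
      (single_le_sum (f := N) (fun _ _ => Nat.zero_le _) (mem_range.mpr hn))
    have h3' : (X.card : ℝ) ≤ M := by exact_mod_cast h3
    have hK0 : (0 : ℝ) ≤ K := by positivity
    have hM0 : (0 : ℝ) ≤ M := by positivity
    nlinarith
  · have hmain := main_ineq hρ hρ1 X h1 h2 K hK
    rw [hR, mul_pow] at hmain
    have hρn : 0 < ρ ^ n := by positivity
    have hr'n : r' ^ n = θ ^ n * ρ ^ n := by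
      rw [hθ, ← mul_pow, div_mul_cancel₀ _ hρ.ne']
    rw [← hr', hr'n] at hmain
    have h4 : (X.card : ℝ) * ρ ^ n ≤ (2 * (K * β ^ n) + X.card * (2 * θ ^ n)) * ρ ^ n := by
      linarith
    have h5 : (X.card : ℝ) ≤ 2 * (K * β ^ n) + X.card * (2 * θ ^ n) :=
      le_of_mul_le_mul_right h4 hρn
    have h6 : 2 * θ ^ n ≤ 1 / 2 := (hn1 n (not_lt.mp hn)).le
    have hX0 : (0 : ℝ) ≤ X.card := by positivity
    have h7 : (X.card : ℝ) ≤ 4 * (K * β ^ n) := by nlinarith
    have hM0 : (0 : ℝ) ≤ M := by positivity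
    nlinarith

/-- Abstract counting: two sequences with `t n ≤ t0 (n+1)` and exponential growth of `t`. -/
theorem density (t t0 : ℕ → ℕ) (h0 : 1 ≤ t 0 ∨ 1 ≤ t 1) (hstep : ∀ n, t n ≤ t0 (n + 1))
    (hle : ∀ n, t0 n ≤ t n) (h11 : t0 1 = t 1)
    (hgrow : ∀ β : ℝ, 0 < β → 2 < β ^ 2 → ∃ C : ℝ, 1 ≤ C ∧ ∀ n, (t n : ℝ) ≤ C * β ^ n)
    (c : ℝ) (hc0 : 0 < c) (hc : 2 * c ^ 2 < 1) (η : ℝ) (hη : 0 < η) :
    ∀ᶠ N : ℕ in atTop, (1 - Real.log 2 / (2 * Real.log (1 / c)) - η) * N ≤
      (((Icc 1 N).filter fun n => c * t n ≤ t0 n).card : ℝ) := by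
  classical
  have ht1 : 1 ≤ t 1 := by
    rcases h0 with h | h
    · exact h.trans ((hstep 0).trans (hle 1))
    · exact h
  have hc1 : c < 1 := by nlinarith
  have hmono : ∀ n, t n ≤ t (n + 1) := fun n => (hstep n).trans (hle _)
  set b : ℕ → ℕ := fun N => ((Icc 1 N).filter fun n => ¬ c * t n ≤ t0 n).card with hb
  have hcount : ∀ N, ((Icc 1 N).filter fun n => c * t n ≤ t0 n).card + b N = N := by
    intro N
    rw [hb]
    simp only
    rw [card_filter_add_card_filter_not, Nat.card_Icc]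
    omega
  -- lower bound for t N
  have hlow : ∀ N, 1 ≤ N → 1 ≤ c ^ b N * (t N : ℝ) := by
    intro N hN
    induction N, hN using Nat.le_induction with
    | base =>
      have : b 1 = 0 := by
        rw [hb]
        simp only
        rw [Finset.card_eq_zero, filter_eq_empty_iff]
        intro n hn h
        rw [mem_Icc] at hn
        have : n = 1 := by omega
        subst this
        apply h
        rw [h11]
        have h3 : (0 : ℝ) ≤ t 1 := by positivity
        nlinarith
      rw [this, pow_zero, one_mul]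
      exact_mod_cast ht1
    | succ N hN ih =>
      have hIcc : Icc 1 (N + 1) = insert (N + 1) (Icc 1 N) := by
        ext k
        simp only [mem_Icc, mem_insert]
        omega
      by_cases hg : c * t (N + 1) ≤ t0 (N + 1)
      · have : b (N + 1) = b N := by
          rw [hb]
          simp only
          rw [hIcc, filter_insert, if_neg (by push Not; exact hg)]
        rw [this]
        have h4 : (t N : ℝ) ≤ t (N + 1) := by exact_mod_cast hmono N
        have h5 : 0 < c ^ b N := by positivity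
        nlinarith
      · have : b (N + 1) = b N + 1 := by
          rw [hb]
          simp only
          rw [hIcc, filter_insert, if_pos hg, card_insert_of_notMem]
          intro h
          rw [mem_filter, mem_Icc] at h
          omega
        rw [this, pow_succ]
        push Not at hg
        have h4 : (t N : ℝ) ≤ t0 (N + 1) := by exact_mod_cast hstep N
        have h5 : 0 < c ^ b N := by positivity
        have h6 : (t N : ℝ) ≤ c * t (N + 1) := by linarith
        calc (1 : ℝ) ≤ c ^ b N * t N := ih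
          _ ≤ c ^ b N * (c * t (N + 1)) := by gcongr
          _ = _ := by ring
  set L := Real.log (1 / c) with hL
  have hLpos : 0 < L := Real.log_pos (by rw [lt_div_iff₀ hc0]; linarith)
  have hlogc : Real.log c = -L := by rw [hL, one_div, Real.log_inv, neg_neg]
  -- choose β
  have hex : ∃ β : ℝ, 0 < β ∧ 2 < β ^ 2 ∧ Real.log β / L ≤ Real.log 2 / (2 * L) + η / 2 := by
    refine ⟨√2 * Real.exp (η / 2 * L), by positivity, ?_, ?_⟩
    · rw [mul_pow, Real.sq_sqrt (by norm_num)]
      have : 1 < Real.exp (η / 2 * L) := by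
        rw [← Real.exp_zero]
        exact Real.exp_lt_exp.mpr (by positivity)
      nlinarith
    · rw [Real.log_mul (by positivity) (by positivity), Real.log_exp, Real.log_sqrt (by norm_num)]
      rw [add_div, mul_div_assoc, div_self hLpos.ne', mul_one, div_div]
  obtain ⟨β, hβ0, hβ2, hβ⟩ := hex
  obtain ⟨C, hC1, hC⟩ := hgrow β hβ0 hβ2
  have hbb : ∀ N, 1 ≤ N → (b N : ℝ) * L ≤ Real.log C + N * Real.log β := by
    intro N hN
    have h3 := hlow N hN
    have h4 : (1 : ℝ) ≤ c ^ b N * (C * β ^ N) :=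
      h3.trans (mul_le_mul_of_nonneg_left (hC N) (by positivity))
    have h5 := Real.log_le_log (by norm_num) h4
    have hC0 : C ≠ 0 := by linarith
    rw [Real.log_one, Real.log_mul (by positivity) (by positivity), Real.log_pow,
      Real.log_mul hC0 (by positivity), Real.log_pow, hlogc] at h5
    linarith
  obtain ⟨N1, hN1⟩ := exists_nat_ge (Real.log C / L / (η / 2))
  filter_upwards [eventually_ge_atTop (max N1 1)] with N hN
  have hNN1 : N1 ≤ N := le_trans (le_max_left _ _) hN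
  have hN1' : 1 ≤ N := le_trans (le_max_right _ _) hN
  have h6 := hbb N hN1'
  have h7 : (b N : ℝ) ≤ Real.log C / L + N * (Real.log β / L) := by
    rw [← mul_le_mul_iff_left₀ hLpos]
    calc (b N : ℝ) * L ≤ Real.log C + N * Real.log β := h6
      _ = (Real.log C / L + N * (Real.log β / L)) * L := by field_simp
  have h8 : Real.log C / L ≤ η / 2 * N := by
    have : Real.log C / L / (η / 2) ≤ N := hN1.trans (by exact_mod_cast hNN1)
    rw [div_le_iff₀ (by positivity)] at this
    linarith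
  have h9 : ((((Icc 1 N).filter fun n => c * t n ≤ t0 n).card : ℕ) : ℝ) + b N = N := by
    exact_mod_cast hcount N
  have h10 : (N : ℝ) * (Real.log β / L) ≤ N * (Real.log 2 / (2 * L) + η / 2) :=
    mul_le_mul_of_nonneg_left hβ (by positivity)
  nlinarith

end Pool.Agent.H19.Kiss
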