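import Pool.Agent.H19.Kiss.Base

/-!
# Kissing configurations: the next dimension
-/

set_option autoImplicit false

namespace Pool.Agent.H19.Kiss

open Finset Filter Topology

/-- Two points of `X` in contact (adjacent in the contact graph). -/
def Touch {n : ℕ} (X : Finset (EuclideanSpace ℝ (Fin n))) (x y : EuclideanSpace ℝ (Fin n)) :
    Prop :=
  x ∈ X ∧ y ∈ X ∧ inner ℝ x y = (1 / 2 : ℝ)

/-- Each connected component of the contact graph of `X` lies in a closed hemisphere. -/
def Hemispherical {n : ℕ} (X : Finset (EuclideanSpace ℝ (Fin n))) : Prop :=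
  ∀ x ∈ X, ∃ p : EuclideanSpace ℝ (Fin n), p ≠ 0 ∧
    ∀ y, Relation.ReflTransGen (Touch X) x y → 0 ≤ inner ℝ p y

theorem freed_hemi {n : ℕ} {X : Finset (EuclideanSpace ℝ (Fin n))} (hX : IsKissing X)
    (h : Hemispherical X) : CanBeFreed X := by
  classical
  have hRsymm : ∀ {x y}, Relation.ReflTransGen (Touch X) x y →
      Relation.ReflTransGen (Touch X) y x := by
    intro x y hxy
    induction hxy with
    | refl => exact Relation.ReflTransGen.refl
    | tail _ hbc ih =>
      exact Relation.ReflTransGen.head ⟨hbc.2.1, hbc.1, by rw [real_inner_comm]; exact hbc.2.2⟩ ih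
  let s : Setoid (EuclideanSpace ℝ (Fin n)) :=
    ⟨Relation.ReflTransGen (Touch X), ⟨fun _ => Relation.ReflTransGen.refl, hRsymm,
      fun h1 h2 => h1.trans h2⟩⟩
  set rep : EuclideanSpace ℝ (Fin n) → EuclideanSpace ℝ (Fin n) :=
    fun x => Quotient.out (Quotient.mk s x) with hrep
  have hrep1 : ∀ x, Relation.ReflTransGen (Touch X) (rep x) x := fun x =>
    Quotient.exact (s := s) (Quotient.out_eq (Quotient.mk s x))
  have hrep2 : ∀ x ∈ X, rep x ∈ X := by
    intro x hx
    have h1 := hRsymm (hrep1 x)
    generalize rep x = z at h1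
    induction h1 with
    | refl => exact hx
    | tail _ hbc _ => exact hbc.2.1
  choose! P hP0 hP using h
  apply freed_of
  intro ε hε
  refine Pool.Agent.H19.Kiss.hemi X hX.1 hX.2 (fun x => P (rep x)) ?_ ?_ ?_ ε hε
  · exact fun x hx => hP0 _ (hrep2 x hx)
  · exact fun x hx => hP _ (hrep2 x hx) x (hrep1 x)
  · intro x hx y hy hxy
    have : Quotient.mk s x = Quotient.mk s y :=
      Quotient.sound (s := s) (Relation.ReflTransGen.single ⟨hx, hy, hxy⟩)
    simp only [hrep]
    rw [this]

/-- Embedding into the next dimension. -/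
noncomputable def emb {n : ℕ} (x : EuclideanSpace ℝ (Fin n)) : EuclideanSpace ℝ (Fin (n + 1)) :=
  WithLp.toLp 2 (Fin.snoc (α := fun _ => ℝ) x 0)

/-- The last basis vector. -/
noncomputable def pole (n : ℕ) : EuclideanSpace ℝ (Fin (n + 1)) :=
  WithLp.toLp 2 (Fin.snoc (α := fun _ => ℝ) (fun _ : Fin n => (0 : ℝ)) 1)

theorem inner_emb {n : ℕ} (x y : EuclideanSpace ℝ (Fin n)) :
    inner ℝ (emb x) (emb y) = inner ℝ x y := by
  rw [PiLp.inner_apply, PiLp.inner_apply, Fin.sum_univ_castSucc]
  simp [emb]

theorem inner_pole_emb {n : ℕ} (x : EuclideanSpace ℝ (Fin n)) :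
    inner ℝ (pole n) (emb x) = (0 : ℝ) := by
  rw [PiLp.inner_apply, Fin.sum_univ_castSucc]
  simp [emb, pole]

theorem inner_pole_pole (n : ℕ) : inner ℝ (pole n) (pole n) = (1 : ℝ) := by
  rw [PiLp.inner_apply, Fin.sum_univ_castSucc]
  simp [pole]

theorem next_dim (n : ℕ) : tau n + 2 ≤ tau0 (n + 1) := by
  classical
  obtain ⟨X, hX, hXc⟩ := exists_tau n
  have hemb : ∀ x, ‖x‖ = 1 → ‖(emb x : EuclideanSpace ℝ (Fin (n + 1)))‖ = 1 := by
    intro x hx
    have h1 : ‖(emb x : EuclideanSpace ℝ (Fin (n + 1)))‖ ^ 2 = 1 := by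
      rw [← real_inner_self_eq_norm_sq, inner_emb, real_inner_self_eq_norm_sq, hx, one_pow]
    exact (pow_eq_one_iff_of_nonneg (norm_nonneg _) two_ne_zero).mp h1
  have hpole : ‖pole n‖ = 1 := by
    have h1 : ‖pole n‖ ^ 2 = 1 := by
      rw [← real_inner_self_eq_norm_sq, inner_pole_pole]
    exact (pow_eq_one_iff_of_nonneg (norm_nonneg _) two_ne_zero).mp h1
  have hinj : Function.Injective (emb (n := n)) := by
    intro x y hxy
    ext i
    have h1 := congrArg (fun z : EuclideanSpace ℝ (Fin (n + 1)) => z (Fin.castSucc i)) hxy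
    simpa [emb] using h1
  set Y := X.image emb with hY
  have hYmem : ∀ y ∈ Y, ‖y‖ = 1 ∧ inner ℝ (pole n) y = (0 : ℝ) := by
    intro y hy
    obtain ⟨x, hx, rfl⟩ := mem_image.mp hy
    exact ⟨hemb x (hX.1 x hx), inner_pole_emb x⟩
  have hp0 : pole n ≠ 0 := by
    intro h
    rw [h, norm_zero] at hpole
    norm_num at hpole
  have hpY : pole n ∉ Y := by
    intro h
    have := (hYmem _ h).2
    rw [inner_pole_pole] at this
    norm_num at this
  have hnY : -pole n ∉ Y := by
    intro h
    have := (hYmem _ h).2
    rw [inner_neg_right, inner_pole_pole] at this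
    norm_num at this
  have hpn : pole n ≠ -pole n := by
    intro h
    have h1 := congrArg (fun z => inner ℝ (pole n) z) h
    simp only [inner_neg_right, inner_pole_pole] at h1
    norm_num at h1
  set Z := insert (pole n) (insert (-pole n) Y) with hZ
  have hZcard : Z.card = X.card + 2 := by
    rw [hZ, card_insert_of_notMem, card_insert_of_notMem hnY, hY, card_image_of_injective _ hinj]
    rw [mem_insert, not_or]
    exact ⟨hpn, hpY⟩
  have hZmem : ∀ z, z ∈ Z ↔ z = pole n ∨ z = -pole n ∨ z ∈ Y := by
    intro z
    rw [hZ, mem_insert, mem_insert]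
  -- inner products
  have hK : IsKissing Z := by
    constructor
    · intro z hz
      rcases (hZmem z).mp hz with rfl | rfl | h
      · exact hpole
      · rw [norm_neg]; exact hpole
      · exact (hYmem z h).1
    · intro x hx y hy hxy
      rcases (hZmem x).mp hx with rfl | rfl | h <;> rcases (hZmem y).mp hy with rfl | rfl | h'
      · exact absurd rfl hxy
      · rw [inner_neg_right, inner_pole_pole]; norm_num
      · rw [(hYmem y h').2]; norm_num
      · rw [inner_neg_left, inner_pole_pole]; norm_num
      · exact absurd rfl hxy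
      · rw [inner_neg_left, (hYmem y h').2]; norm_num
      · rw [real_inner_comm, (hYmem x h).2]; norm_num
      · rw [real_inner_comm, inner_neg_left, (hYmem x h).2]; norm_num
      · obtain ⟨a, ha, rfl⟩ := mem_image.mp h
        obtain ⟨b, hb, rfl⟩ := mem_image.mp h'
        rw [inner_emb]
        exact hX.2 a ha b hb (fun hab => hxy (by rw [hab]))
  have hH : Hemispherical Z := by
    intro x hx
    have hYY : ∀ a b, Touch Z a b → a ∈ Y → b ∈ Y := by
      rintro a b ⟨_, hb, hab⟩ ha
      rcases (hZmem b).mp hb with rfl | rfl | h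
      · rw [real_inner_comm, (hYmem a ha).2] at hab; norm_num at hab
      · rw [real_inner_comm, inner_neg_left, (hYmem a ha).2] at hab; norm_num at hab
      · exact h
    rcases (hZmem x).mp hx with rfl | rfl | h
    · refine ⟨pole n, hp0, fun y hy => ?_⟩
      have : y = pole n := by
        induction hy with
        | refl => rfl
        | tail _ hbc ih =>
          subst ih
          obtain ⟨_, hc, hbc⟩ := hbc
          rcases (hZmem _).mp hc with rfl | rfl | h
          · rfl
          · rw [inner_neg_right, inner_pole_pole] at hbc; norm_num at hbc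
          · rw [(hYmem _ h).2] at hbc; norm_num at hbc
      rw [this, inner_pole_pole]
      norm_num
    · refine ⟨-pole n, neg_ne_zero.mpr hp0, fun y hy => ?_⟩
      have : y = -pole n := by
        induction hy with
        | refl => rfl
        | tail _ hbc ih =>
          subst ih
          obtain ⟨_, hc, hbc⟩ := hbc
          rcases (hZmem _).mp hc with rfl | rfl | h
          · rw [inner_neg_left, inner_pole_pole] at hbc; norm_num at hbc
          · rfl
          · rw [inner_neg_left, (hYmem _ h).2] at hbc; norm_num at hbc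
      rw [this, inner_neg_neg, inner_pole_pole]
      norm_num
    · refine ⟨pole n, hp0, fun y hy => ?_⟩
      have : y ∈ Y := by
        induction hy with
        | refl => exact h
        | tail _ hbc ih => exact hYY _ _ hbc ih
      rw [(hYmem y this).2]
  have := card_le_of_freed (freed_hemi hK hH)
  rw [hZcard, hXc] at this
  exact this

theorem tau_one_le : tau 1 ≤ 2 := by
  classical
  obtain ⟨X, hX, hXc⟩ := exists_tau 1
  rw [← hXc]
  have h : X ⊆ {EuclideanSpace.single 0 1, EuclideanSpace.single 0 (-1)} := by
    intro x hx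
    have h1 := hX.1 x hx
    have h2 : x 0 ^ 2 = 1 := by
      have := EuclideanSpace.norm_sq_eq x
      rw [h1, Fin.sum_univ_one, Real.norm_eq_abs, sq_abs] at this
      linarith
    rw [mem_insert, mem_singleton]
    have h4 : x 0 = 1 ∨ x 0 = -1 := by
      have : (x 0 - 1) * (x 0 + 1) = 0 := by linarith
      rcases mul_eq_zero.mp this with h5 | h5
      · left; linarith
      · right; linarith
    rcases h4 with h3 | h3
    · left
      ext i
      have : i = 0 := Subsingleton.elim _ _
      subst this
      simp [h3]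
    · right
      ext i
      have : i = 0 := Subsingleton.elim _ _
      subst this
      simp [h3]
  exact (card_le_card h).trans card_le_two

end Pool.Agent.H19.Kiss
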