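import Pool.Agent.H19.Kiss.Stress

/-!
# Kissing configurations: peeling off points that are not jammed
-/

set_option autoImplicit false

namespace Pool.Agent.H19.Kiss

open Filter Topology Finset

variable {E : Type*} [NormedAddCommGroup E] [InnerProductSpace ℝ E]

/-- A point whose neighbours lie in a closed half-space bounded by a hyperplane through it can be
moved off all its contacts. -/
theorem move_one (X : Finset E) (h1 : ∀ x ∈ X, ‖x‖ = 1)
    (h2 : ∀ x ∈ X, ∀ y ∈ X, x ≠ y → inner ℝ x y ≤ (1 / 2 : ℝ)) {x : E} (hx : x ∈ X) {p : E}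
    (hp : p ≠ 0) (hpx : inner ℝ p x = (0 : ℝ))
    (hpy : ∀ y ∈ X, inner ℝ x y = (1 / 2 : ℝ) → 0 ≤ (inner ℝ p y : ℝ)) (ε : ℝ) (hε : 0 < ε) :
    ∃ x' : E, ‖x'‖ = 1 ∧ ‖x' - x‖ < ε ∧ ∀ y ∈ X, y ≠ x → inner ℝ x' y < (1 / 2 : ℝ) := by
  classical
  set g : ℝ → E := fun t => x - t • p with hg
  have hgc : Continuous g := by rw [hg]; fun_prop
  have hg0 : g 0 = x := by simp [hg]
  have hnorm : ∀ t, ‖g t‖ ^ 2 = 1 + t ^ 2 * ‖p‖ ^ 2 := by
    intro t
    rw [hg]
    simp only
    rw [norm_sub_sq_real, h1 x hx, real_inner_smul_right, real_inner_comm, hpx, norm_smul,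
      mul_pow, Real.norm_eq_abs, sq_abs]
    ring
  have hpos : ∀ t, 0 < ‖g t‖ := by
    intro t
    have h3 := hnorm t
    have h4 : 0 < ‖g t‖ ^ 2 := by rw [h3]; positivity
    refine lt_of_le_of_ne (norm_nonneg _) fun h => ?_
    rw [← h] at h4
    norm_num at h4
  have hgt : ∀ t, 0 < t → 1 < ‖g t‖ := by
    intro t ht
    have h3 := hnorm t
    have h5 : 0 < ‖p‖ := norm_pos_iff.mpr hp
    have h4 : 1 < ‖g t‖ ^ 2 := by
      rw [h3]
      have : 0 < t ^ 2 * ‖p‖ ^ 2 := by positivity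
      linarith
    by_contra hcon
    push Not at hcon
    have := hpos t
    nlinarith
  set f : ℝ → E := fun t => (‖g t‖)⁻¹ • g t with hf
  have hfc : Continuous f := by
    rw [hf]
    exact (hgc.norm.inv₀ fun t => (hpos t).ne').smul hgc
  have hf0 : f 0 = x := by
    rw [hf]
    simp only
    rw [hg0, h1 x hx, inv_one, one_smul]
  have hev1 : ∀ᶠ t in 𝓝[>] (0 : ℝ), ‖f t - x‖ < ε := by
    have h3 : Tendsto (fun t => ‖f t - x‖) (𝓝 0) (𝓝 ‖f 0 - x‖) :=
      (hfc.sub continuous_const).norm.tendsto 0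
    rw [hf0, sub_self, norm_zero] at h3
    exact (tendsto_nhdsWithin_of_tendsto_nhds h3).eventually_lt_const hε
  have hev2 : ∀ y ∈ X, y ≠ x → ∀ᶠ t in 𝓝[>] (0 : ℝ), inner ℝ (f t) y < (1 / 2 : ℝ) := by
    intro y hy hyx
    rcases lt_or_eq_of_le (h2 x hx y hy hyx.symm) with hlt | heq
    · have h3 : Tendsto (fun t => (inner ℝ (f t) y : ℝ)) (𝓝 0) (𝓝 (inner ℝ (f 0) y)) :=
        (hfc.inner continuous_const).tendsto 0
      rw [hf0] at h3
      exact (tendsto_nhdsWithin_of_tendsto_nhds h3).eventually_lt_const hlt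
    · filter_upwards [self_mem_nhdsWithin] with t ht
      have ht0 : 0 < t := ht
      have h3 : (inner ℝ (f t) y : ℝ) = (1 / 2 - t * inner ℝ p y) / ‖g t‖ := by
        rw [hf]
        simp only
        rw [real_inner_smul_left, hg]
        simp only
        rw [inner_sub_left, real_inner_smul_left, heq]
        ring
      rw [h3, div_lt_iff₀ (hpos t)]
      have h4 := hpy y hy heq
      have h5 := hgt t ht0
      have h6 : 0 ≤ t * inner ℝ p y := mul_nonneg ht0.le h4
      linarith
  have hall : ∀ᶠ t in 𝓝[>] (0 : ℝ), ‖f t - x‖ < ε ∧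
      ∀ y ∈ X, y ≠ x → inner ℝ (f t) y < (1 / 2 : ℝ) := by
    refine hev1.and ((eventually_all_finset X).mpr fun y hy => ?_)
    by_cases hyx : y = x
    · exact Eventually.of_forall fun t h => absurd hyx h
    · filter_upwards [hev2 y hy hyx] with t ht _ using ht
  obtain ⟨t, ht1, ht2⟩ := hall.exists
  refine ⟨f t, ?_, ht1, ht2⟩
  rw [hf]
  simp only
  rw [norm_smul, norm_inv, norm_norm, inv_mul_cancel₀ (hpos t).ne']

theorem peel [CompleteSpace E] (k : ℕ) : ∀ (Z X : Finset E), Z.card = k → Z ⊆ X →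
    (∀ x ∈ X, ‖x‖ = 1) → (∀ x ∈ X, ∀ y ∈ X, x ≠ y → inner ℝ x y ≤ (1 / 2 : ℝ)) →
    (∀ x ∈ X, ∀ y ∈ X, inner ℝ x y = (1 / 2 : ℝ) → x ∈ Z) →
    (∀ Y ⊆ Z, (∀ x ∈ Y, ∀ p : E, p ≠ 0 → inner ℝ p x = (0 : ℝ) →
        ∃ y ∈ Y, inner ℝ x y = (1 / 2 : ℝ) ∧ inner ℝ p y < (0 : ℝ)) →
      ∀ w : E → E → ℝ, (∀ x y, 0 ≤ w x y) → (∀ x y, w x y = w y x) →
      (∀ x ∈ Y, ∑ y ∈ Y with inner ℝ x y = (1 / 2 : ℝ), w x y • ((2 : ℝ) • y - x) = 0) →
      ∀ x ∈ Y, ∀ y ∈ Y, inner ℝ x y = (1 / 2 : ℝ) → w x y = 0) →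
    ∀ ε : ℝ, 0 < ε → ∃ f : E → E, (∀ x ∈ X, ‖f x‖ = 1 ∧ ‖f x - x‖ < ε) ∧
      ∀ x ∈ X, ∀ y ∈ X, x ≠ y → inner ℝ (f x) (f y) < (1 / 2 : ℝ) := by
  classical
  induction k with
  | zero =>
    intro Z X hZ _ h1 h2 h3 _ ε hε
    rw [Finset.card_eq_zero] at hZ
    subst hZ
    refine ⟨id, fun x hx => ⟨h1 x hx, by simpa using hε⟩, fun x hx y hy hxy => ?_⟩
    refine lt_of_le_of_ne (h2 x hx y hy hxy) fun h => ?_
    exact absurd (h3 x hx y hy h) (Finset.notMem_empty x)
  | succ k ih =>
    intro Z X hZ hZX h1 h2 h3 h4 ε hε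
    by_cases hj : ∀ x ∈ Z, ∀ p : E, p ≠ 0 → inner ℝ p x = (0 : ℝ) →
        ∃ y ∈ Z, inner ℝ x y = (1 / 2 : ℝ) ∧ inner ℝ p y < (0 : ℝ)
    · have hS := h4 Z (Subset.refl Z) hj
      refine stressFree X h1 h2 ?_ ε hε
      intro w hw0 hws hweq x hx y hy hxy
      refine hS w hw0 hws ?_ x (h3 x hx y hy hxy) y
        (h3 y hy x hx (by rw [real_inner_comm]; exact hxy)) hxy
      intro a ha
      have h5 := hweq a (hZX ha)
      have h6 : (X.filter fun y => inner ℝ a y = (1 / 2 : ℝ)) =
          Z.filter fun y => inner ℝ a y = (1 / 2 : ℝ) := by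
        ext b
        rw [mem_filter, mem_filter]
        constructor
        · rintro ⟨hb, hab⟩
          exact ⟨h3 b hb a (hZX ha) (by rw [real_inner_comm]; exact hab), hab⟩
        · rintro ⟨hb, hab⟩
          exact ⟨hZX hb, hab⟩
      rw [h6] at h5
      exact h5
    · push Not at hj
      obtain ⟨x, hxZ, p, hp, hpx, hpy⟩ := hj
      have hxX := hZX hxZ
      obtain ⟨x', hx'1, hx'2, hx'3⟩ := move_one X h1 h2 hxX hp hpx
        (fun y hy hxy => hpy y (h3 y hy x hxX (by rw [real_inner_comm]; exact hxy)) hxy)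
        (ε / 2) (by linarith)
      have hx'X : x' ∉ X.erase x := by
        intro h
        have h5 := hx'3 x' (mem_of_mem_erase h) (ne_of_mem_erase h)
        rw [real_inner_self_eq_norm_sq, hx'1] at h5
        norm_num at h5
      set X' := insert x' (X.erase x) with hX'
      have hmem : ∀ z, z ∈ X' ↔ z = x' ∨ (z ≠ x ∧ z ∈ X) := by
        intro z
        rw [hX', mem_insert, mem_erase]
      obtain ⟨f', hf'1, hf'2⟩ := ih (Z.erase x) X'
        (by rw [card_erase_of_mem hxZ, hZ]; rfl)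
        (by
          intro z hz
          rw [mem_erase] at hz
          exact (hmem z).2 (Or.inr ⟨hz.1, hZX hz.2⟩))
        (by
          intro z hz
          rcases (hmem z).1 hz with rfl | h
          · exact hx'1
          · exact h1 z h.2)
        (by
          intro a ha b hb hab
          rcases (hmem a).1 ha with rfl | h
          · rcases (hmem b).1 hb with rfl | h'
            · exact absurd rfl hab
            · exact (hx'3 b h'.2 h'.1).le
          · rcases (hmem b).1 hb with rfl | h'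
            · rw [real_inner_comm]
              exact (hx'3 a h.2 h.1).le
            · exact h2 a h.2 b h'.2 hab)
        (by
          intro a ha b hb hab
          rw [mem_erase]
          rcases (hmem a).1 ha with rfl | h
          · rcases (hmem b).1 hb with rfl | h'
            · rw [real_inner_self_eq_norm_sq, hx'1] at hab
              norm_num at hab
            · have := hx'3 b h'.2 h'.1
              linarith
          · rcases (hmem b).1 hb with rfl | h'
            · rw [real_inner_comm] at hab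
              have := hx'3 a h.2 h.1
              linarith
            · exact ⟨h.1, h3 a h.2 b h'.2 hab⟩)
        (fun Y hY => h4 Y (hY.trans (erase_subset _ _))) (ε / 2) (by linarith)
      refine ⟨fun z => if z = x then f' x' else f' z, ?_, ?_⟩
      · intro z hz
        by_cases hzx : z = x
        · simp only [hzx, if_true]
          have h5 := hf'1 x' ((hmem x').2 (Or.inl rfl))
          refine ⟨h5.1, ?_⟩
          calc ‖f' x' - x‖ = ‖(f' x' - x') + (x' - x)‖ := by congr 1; abel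
            _ ≤ ‖f' x' - x'‖ + ‖x' - x‖ := norm_add_le _ _
            _ < ε := by linarith [h5.2]
        · simp only [hzx, if_false]
          have h5 := hf'1 z ((hmem z).2 (Or.inr ⟨hzx, hz⟩))
          exact ⟨h5.1, by linarith [h5.2]⟩
      · intro a ha b hb hab
        by_cases hax : a = x
        · by_cases hbx : b = x
          · exact absurd (hax.trans hbx.symm) hab
          · simp only [hax, hbx, if_true, if_false]
            refine hf'2 x' ((hmem x').2 (Or.inl rfl)) b ((hmem b).2 (Or.inr ⟨hbx, hb⟩)) ?_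
            rintro rfl
            exact hx'X (mem_erase.2 ⟨hbx, hb⟩)
        · by_cases hbx : b = x
          · simp only [hax, hbx, if_true, if_false]
            refine hf'2 a ((hmem a).2 (Or.inr ⟨hax, ha⟩)) x' ((hmem x').2 (Or.inl rfl)) ?_
            rintro rfl
            exact hx'X (mem_erase.2 ⟨hax, ha⟩)
          · simp only [hax, hbx, if_false]
            exact hf'2 a ((hmem a).2 (Or.inr ⟨hax, ha⟩)) b ((hmem b).2 (Or.inr ⟨hbx, hb⟩)) hab

end Pool.Agent.H19.Kiss
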