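import Mathlib

set_option autoImplicit false

namespace Pool.Agent.H19.Kiss

open Finset MeasureTheory Metric

section
variable {E : Type*} [NormedAddCommGroup E] [InnerProductSpace ℝ E]

theorem mult (T : Finset E) (h1 : ∀ x ∈ T, ‖x‖ = 1)
    (h2 : ∀ x ∈ T, ∀ y ∈ T, x ≠ y → inner ℝ x y ≤ (1 / 2 : ℝ)) (y : E) (A : ℝ) (hA0 : 0 ≤ A)
    (hA : ∀ x ∈ T, A ≤ inner ℝ x y) :
    (T.card : ℝ) * (2 * A ^ 2 - ‖y‖ ^ 2) ≤ ‖y‖ ^ 2 := by
  classical
  rcases T.eq_empty_or_nonempty with hT | hT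
  · rw [hT]; simp
  have hk : (1 : ℝ) ≤ T.card := by exact_mod_cast hT.card_pos
  set k : ℝ := (T.card : ℝ) with hkdef
  have hrow : ∀ x ∈ T, ∑ z ∈ T, inner ℝ x z ≤ 1 + (k - 1) / 2 := by
    intro x hx
    rw [← add_sum_erase T _ hx, real_inner_self_eq_norm_sq, h1 x hx]
    have h3 : ∑ z ∈ T.erase x, inner ℝ x z ≤ ∑ z ∈ T.erase x, (1 / 2 : ℝ) :=
      sum_le_sum fun z hz => h2 x hx z (mem_of_mem_erase hz) (ne_of_mem_erase hz).symm
    rw [sum_const, card_erase_of_mem hx, nsmul_eq_mul, Nat.cast_sub hT.card_pos] at h3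
    have : ((1 : ℝ)) ^ 2 = 1 := by norm_num
    rw [this]
    push_cast at h3
    linarith
  have hS : ‖∑ x ∈ T, x‖ ^ 2 ≤ k * (1 + (k - 1) / 2) := by
    rw [← real_inner_self_eq_norm_sq, sum_inner]
    simp_rw [inner_sum]
    calc ∑ x ∈ T, ∑ z ∈ T, inner ℝ x z ≤ ∑ x ∈ T, (1 + (k - 1) / 2) := sum_le_sum hrow
      _ = k * (1 + (k - 1) / 2) := by rw [sum_const, nsmul_eq_mul]
  have hin : k * A ≤ inner ℝ (∑ x ∈ T, x) y := by
    rw [sum_inner]
    calc k * A = ∑ x ∈ T, A := by rw [sum_const, nsmul_eq_mul]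
      _ ≤ _ := sum_le_sum hA
  have hcs : (k * A) ^ 2 ≤ k * (1 + (k - 1) / 2) * ‖y‖ ^ 2 := by
    have h3 : inner ℝ (∑ x ∈ T, x) y ≤ ‖∑ x ∈ T, x‖ * ‖y‖ := real_inner_le_norm _ _
    have h4 : 0 ≤ k * A := by positivity
    calc (k * A) ^ 2 ≤ (‖∑ x ∈ T, x‖ * ‖y‖) ^ 2 := by
          exact pow_le_pow_left₀ h4 (hin.trans h3) 2
      _ = ‖∑ x ∈ T, x‖ ^ 2 * ‖y‖ ^ 2 := by ring
      _ ≤ _ := mul_le_mul_of_nonneg_right hS (by positivity)
  have h5 : k * (k * (2 * A ^ 2 - ‖y‖ ^ 2)) ≤ k * ‖y‖ ^ 2 := by nlinarith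
  exact le_of_mul_le_mul_left h5 (by linarith)

end

variable {n : ℕ}


/-- The part of the ball of radius `ρ` around `x` which is used. -/
def Sx (ρ : ℝ) (x : (EuclideanSpace ℝ (Fin n))) : Set (EuclideanSpace ℝ (Fin n)) :=
  {y | ‖y - x‖ ≤ ρ ∧ 1 + ρ ^ 2 - (1 - ρ ^ 2) / 2 ≤ ‖y‖ ^ 2 ∧ inner ℝ (y - x) x ≤ 0}

theorem measurable_Sx (ρ : ℝ) (x : (EuclideanSpace ℝ (Fin n))) : MeasurableSet (Sx ρ x) := by
  have h1 : IsClosed {y : (EuclideanSpace ℝ (Fin n)) | ‖y - x‖ ≤ ρ} := isClosed_le (by fun_prop) continuous_const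
  have h2 : IsClosed {y : (EuclideanSpace ℝ (Fin n)) | 1 + ρ ^ 2 - (1 - ρ ^ 2) / 2 ≤ ‖y‖ ^ 2} :=
    isClosed_le continuous_const (by fun_prop)
  have h3 : IsClosed {y : (EuclideanSpace ℝ (Fin n)) | inner ℝ (y - x) x ≤ 0} := isClosed_le (by fun_prop) continuous_const
  exact (h1.inter (h2.inter h3)).measurableSet

theorem norm_sq_le {ρ : ℝ} {x y : (EuclideanSpace ℝ (Fin n))} (hx : ‖x‖ = 1) (hρ : 0 ≤ ρ) (h : ‖y - x‖ ≤ ρ)
    (h' : inner ℝ (y - x) x ≤ 0) : ‖y‖ ^ 2 ≤ 1 + ρ ^ 2 := by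
  have h1 : ‖y‖ ^ 2 = ‖y - x‖ ^ 2 + 2 * inner ℝ (y - x) x + ‖x‖ ^ 2 := by
    rw [← norm_add_sq_real, sub_add_cancel]
  have h2 : ‖y - x‖ ^ 2 ≤ ρ ^ 2 := pow_le_pow_left₀ (norm_nonneg _) h 2
  rw [h1, hx]
  linarith

theorem card_le {ρ : ℝ} (hρ : 0 < ρ) (hρ1 : ρ < 1) (X : Finset (EuclideanSpace ℝ (Fin n))) (h1 : ∀ x ∈ X, ‖x‖ = 1)
    (h2 : ∀ x ∈ X, ∀ y ∈ X, x ≠ y → inner ℝ x y ≤ (1 / 2 : ℝ)) (y : (EuclideanSpace ℝ (Fin n)))
    [DecidablePred fun x => y ∈ Sx ρ x] :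
    (((X.filter fun x => y ∈ Sx ρ x).card : ℕ) : ℝ) * ((1 - ρ ^ 2) / 2) ≤ 2 := by
  set T := X.filter fun x => y ∈ Sx ρ x with hT
  rcases T.eq_empty_or_nonempty with h | ⟨x0, hx0⟩
  · rw [h]; simp
  have hρ2 : ρ ^ 2 < 1 := by nlinarith
  have hmem : ∀ x ∈ T, x ∈ X ∧ y ∈ Sx ρ x := fun x hx => mem_filter.mp hx
  obtain ⟨hx0X, hy1, hy2, hy3⟩ := hmem x0 hx0
  have hm : ‖y‖ ^ 2 ≤ 1 + ρ ^ 2 := norm_sq_le (h1 x0 hx0X) hρ.le hy1 hy3
  set m := ‖y‖ ^ 2 with hmdef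
  have hA0 : 0 ≤ (m + 1 - ρ ^ 2) / 2 := by nlinarith
  have key := mult T (fun x hx => h1 x (hmem x hx).1)
    (fun x hx z hz hxz => h2 x (hmem x hx).1 z (hmem z hz).1 hxz) y ((m + 1 - ρ ^ 2) / 2) hA0 (by
      intro x hx
      obtain ⟨hxX, hyx, _, _⟩ := hmem x hx
      have h3 : ‖y - x‖ ^ 2 = m - 2 * inner ℝ y x + 1 := by
        rw [norm_sub_sq_real, h1 x hxX, hmdef]
        ring
      have h4 : ‖y - x‖ ^ 2 ≤ ρ ^ 2 := pow_le_pow_left₀ (norm_nonneg _) hyx 2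
      rw [real_inner_comm]
      linarith)
  have h5 : (1 - ρ ^ 2) / 2 ≤ 2 * ((m + 1 - ρ ^ 2) / 2) ^ 2 - m := by
    have hd0 : 0 ≤ 1 + ρ ^ 2 - m := by linarith
    have hd1 : 1 + ρ ^ 2 - m ≤ (1 - ρ ^ 2) / 2 := by linarith
    nlinarith
  have hc : (0 : ℝ) ≤ T.card := by positivity
  calc (T.card : ℝ) * ((1 - ρ ^ 2) / 2) ≤ T.card * (2 * ((m + 1 - ρ ^ 2) / 2) ^ 2 - m) :=
        mul_le_mul_of_nonneg_left h5 hc
    _ ≤ m := key
    _ ≤ 2 := by linarith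

theorem sum_measure_le {ρ : ℝ} (hρ : 0 < ρ) (hρ1 : ρ < 1) (X : Finset (EuclideanSpace ℝ (Fin n)))
    (h1 : ∀ x ∈ X, ‖x‖ = 1)
    (h2 : ∀ x ∈ X, ∀ y ∈ X, x ≠ y → inner ℝ x y ≤ (1 / 2 : ℝ)) (K : ℕ)
    (hK : 2 / ((1 - ρ ^ 2) / 2) ≤ (K : ℝ)) :
    ∑ x ∈ X, volume (Sx ρ x) ≤ K * volume (closedBall (0 : (EuclideanSpace ℝ (Fin n))) (√(1 + ρ ^ 2))) := by
  classical
  have hρ2 : ρ ^ 2 < 1 := by nlinarith
  have e1 : ∀ x ∈ X, volume (Sx ρ x) = ∫⁻ y, (Sx ρ x).indicator 1 y := by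
    intro x _
    rw [lintegral_indicator_one (measurable_Sx ρ x)]
  rw [sum_congr rfl e1, ← lintegral_finsetSum]
  · calc ∫⁻ y, ∑ x ∈ X, (Sx ρ x).indicator (1 : (EuclideanSpace ℝ (Fin n)) → ENNReal) y
        ≤ ∫⁻ y, (closedBall (0 : (EuclideanSpace ℝ (Fin n))) (√(1 + ρ ^ 2))).indicator (fun _ => (K : ENNReal)) y := by
          refine lintegral_mono fun y => ?_
          have h3 : ∑ x ∈ X, (Sx ρ x).indicator (1 : (EuclideanSpace ℝ (Fin n)) → ENNReal) y =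
              (((X.filter fun x => y ∈ Sx ρ x).card : ℕ) : ENNReal) := by
            rw [card_filter, Nat.cast_sum]
            refine sum_congr rfl fun x _ => ?_
            by_cases h : y ∈ Sx ρ x
            · rw [Set.indicator_of_mem h, if_pos h]; simp
            · rw [Set.indicator_of_notMem h, if_neg h]; simp
          simp only
          rw [h3]
          by_cases hy : y ∈ closedBall (0 : (EuclideanSpace ℝ (Fin n))) (√(1 + ρ ^ 2))
          · rw [Set.indicator_of_mem hy]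
            have h4 := card_le hρ hρ1 X h1 h2 y
            have h5 : (((X.filter fun x => y ∈ Sx ρ x).card : ℕ) : ℝ) ≤ K := by
              refine le_trans ?_ hK
              rw [le_div_iff₀ (by linarith)]
              exact h4
            exact_mod_cast h5
          · have : X.filter (fun x => y ∈ Sx ρ x) = ∅ := by
              rw [filter_eq_empty_iff]
              intro x hx hyx
              apply hy
              rw [mem_closedBall_zero_iff]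
              apply Real.le_sqrt_of_sq_le
              exact norm_sq_le (h1 x hx) hρ.le hyx.1 hyx.2.2
            rw [this]
            simp
      _ = K * volume (closedBall (0 : (EuclideanSpace ℝ (Fin n))) (√(1 + ρ ^ 2))) := by
          rw [lintegral_indicator measurableSet_closedBall, setLIntegral_const]
  · intro x _
    exact (measurable_one.indicator (measurable_Sx ρ x))

theorem ball_le {ρ : ℝ} (hρ : 0 < ρ) (hρ1 : ρ < 1) {x : (EuclideanSpace ℝ (Fin n))} (hx : ‖x‖ = 1) :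
    volume (closedBall x ρ) ≤ 2 * (volume (Sx ρ x) +
      volume (closedBall ((1 - (1 - ρ ^ 2) / 4) • x) (√(ρ ^ 2 - ((1 - ρ ^ 2) / 4) ^ 2)))) := by
  set H : Set (EuclideanSpace ℝ (Fin n)) := {y | ‖y - x‖ ≤ ρ ∧ inner ℝ (y - x) x ≤ 0} with hH
  have hHm : MeasurableSet H := by
    have h1 : IsClosed {y : (EuclideanSpace ℝ (Fin n)) | ‖y - x‖ ≤ ρ} := isClosed_le (by fun_prop) continuous_const
    have h3 : IsClosed {y : (EuclideanSpace ℝ (Fin n)) | inner ℝ (y - x) x ≤ 0} :=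
      isClosed_le (by fun_prop) continuous_const
    exact (h1.inter h3).measurableSet
  have hmp : MeasurePreserving (fun y : (EuclideanSpace ℝ (Fin n)) => (2 : ℝ) • x - y) volume volume :=
    Measure.measurePreserving_sub_left volume ((2 : ℝ) • x)
  have hcov : closedBall x ρ ⊆ H ∪ (fun y : (EuclideanSpace ℝ (Fin n)) => (2 : ℝ) • x - y) ⁻¹' H := by
    intro y hy
    rw [mem_closedBall, dist_eq_norm] at hy
    by_cases h : inner ℝ (y - x) x ≤ 0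
    · exact Or.inl ⟨hy, h⟩
    · right
      have he : (2 : ℝ) • x - y - x = -(y - x) := by
        rw [two_smul]; abel
      refine ⟨?_, ?_⟩
      · simp only
        rw [he, norm_neg]
        exact hy
      · simp only
        rw [he, inner_neg_left]
        push Not at h
        linarith
  have h1 : volume (closedBall x ρ) ≤ 2 * volume H := by
    calc volume (closedBall x ρ) ≤ volume (H ∪ (fun y : (EuclideanSpace ℝ (Fin n)) => (2 : ℝ) • x - y) ⁻¹' H) :=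
          measure_mono hcov
      _ ≤ volume H + volume ((fun y : (EuclideanSpace ℝ (Fin n)) => (2 : ℝ) • x - y) ⁻¹' H) := measure_union_le _ _
      _ = 2 * volume H := by
          rw [hmp.measure_preimage hHm.nullMeasurableSet, two_mul]
  have hρ2 : ρ ^ 2 < 1 := by nlinarith
  have h2 : H ⊆ Sx ρ x ∪ closedBall ((1 - (1 - ρ ^ 2) / 4) • x)
      (√(ρ ^ 2 - ((1 - ρ ^ 2) / 4) ^ 2)) := by
    rintro y ⟨hy1, hy2⟩
    by_cases h : 1 + ρ ^ 2 - (1 - ρ ^ 2) / 2 ≤ ‖y‖ ^ 2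
    · exact Or.inl ⟨hy1, h, hy2⟩
    · right
      push Not at h
      rw [mem_closedBall, dist_eq_norm]
      apply Real.le_sqrt_of_sq_le
      set l := (1 - ρ ^ 2) / 4 with hl
      have hl0 : 0 < l := by rw [hl]; linarith
      have hl1 : l < 1 := by rw [hl]; nlinarith
      have e1 : ‖y - (1 - l) • x‖ ^ 2 = ‖y‖ ^ 2 - 2 * (1 - l) * inner ℝ y x + (1 - l) ^ 2 := by
        rw [norm_sub_sq_real, real_inner_smul_right, norm_smul, hx, mul_one, Real.norm_eq_abs,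
          sq_abs]
        ring
      have e2 : ‖y - x‖ ^ 2 = ‖y‖ ^ 2 - 2 * inner ℝ y x + 1 := by
        rw [norm_sub_sq_real, hx]
        ring
      have e3 : ‖y - x‖ ^ 2 ≤ ρ ^ 2 := pow_le_pow_left₀ (norm_nonneg _) hy1 2
      have e4 : ‖y - (1 - l) • x‖ ^ 2 = (1 - l) * ‖y - x‖ ^ 2 + l * ‖y‖ ^ 2 - l * (1 - l) := by
        rw [e1, e2]; ring
      have h6 : ‖y‖ ^ 2 ≤ 1 + ρ ^ 2 - 2 * l := by rw [hl]; linarith
      rw [e4]
      nlinarith
  calc volume (closedBall x ρ) ≤ 2 * volume H := h1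
    _ ≤ 2 * (volume (Sx ρ x) + volume (closedBall ((1 - (1 - ρ ^ 2) / 4) • x)
        (√(ρ ^ 2 - ((1 - ρ ^ 2) / 4) ^ 2)))) := by
        gcongr
        exact (measure_mono h2).trans (measure_union_le _ _)

theorem main_ineq {ρ : ℝ} (hρ : 0 < ρ) (hρ1 : ρ < 1) (X : Finset (EuclideanSpace ℝ (Fin n)))
    (h1 : ∀ x ∈ X, ‖x‖ = 1)
    (h2 : ∀ x ∈ X, ∀ y ∈ X, x ≠ y → inner ℝ x y ≤ (1 / 2 : ℝ)) (K : ℕ)
    (hK : 2 / ((1 - ρ ^ 2) / 2) ≤ (K : ℝ)) :
    (X.card : ℝ) * ρ ^ n ≤ 2 * (K * (√(1 + ρ ^ 2)) ^ n +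
      X.card * (√(ρ ^ 2 - ((1 - ρ ^ 2) / 4) ^ 2)) ^ n) := by
  set r' := √(ρ ^ 2 - ((1 - ρ ^ 2) / 4) ^ 2) with hr'
  set R := √(1 + ρ ^ 2) with hR
  set v := volume (closedBall (0 : (EuclideanSpace ℝ (Fin n))) 1) with hv
  have hv0 : v ≠ 0 := (measure_closedBall_pos volume _ one_pos).ne'
  have hvt : v ≠ ⊤ := measure_closedBall_lt_top.ne
  have hvol : ∀ (x : (EuclideanSpace ℝ (Fin n))) {r : ℝ}, 0 ≤ r → volume (closedBall x r) = ENNReal.ofReal (r ^ n) * v := by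
    intro x r hr
    rw [Measure.addHaar_closedBall' volume x hr, finrank_euclideanSpace, Fintype.card_fin]
  have hr'0 : 0 ≤ r' := Real.sqrt_nonneg _
  have hR0 : 0 ≤ R := Real.sqrt_nonneg _
  have key : (X.card : ENNReal) * (ENNReal.ofReal (ρ ^ n) * v) ≤
      2 * (K * (ENNReal.ofReal (R ^ n) * v) + X.card * (ENNReal.ofReal (r' ^ n) * v)) := by
    calc (X.card : ENNReal) * (ENNReal.ofReal (ρ ^ n) * v)
        = ∑ x ∈ X, volume (closedBall x ρ) := by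
          rw [sum_congr rfl (fun x _ => hvol x hρ.le), sum_const, nsmul_eq_mul]
      _ ≤ ∑ x ∈ X, 2 * (volume (Sx ρ x) +
          volume (closedBall ((1 - (1 - ρ ^ 2) / 4) • x) r')) :=
          sum_le_sum fun x hx => ball_le hρ hρ1 (h1 x hx)
      _ = 2 * (∑ x ∈ X, volume (Sx ρ x) + X.card * (ENNReal.ofReal (r' ^ n) * v)) := by
          rw [← mul_sum, sum_add_distrib, sum_congr rfl (fun x _ => hvol _ hr'0), sum_const,
            nsmul_eq_mul]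
      _ ≤ 2 * (K * (ENNReal.ofReal (R ^ n) * v) + X.card * (ENNReal.ofReal (r' ^ n) * v)) := by
          have := sum_measure_le hρ hρ1 X h1 h2 K hK
          rw [hvol _ (Real.sqrt_nonneg _)] at this
          gcongr
  have h3 : ENNReal.ofReal ((X.card : ℝ) * ρ ^ n) * v ≤
      ENNReal.ofReal (2 * (K * R ^ n + X.card * r' ^ n)) * v := by
    rw [ENNReal.ofReal_mul (by positivity), ENNReal.ofReal_mul (by positivity),
      ENNReal.ofReal_add (by positivity) (by positivity), ENNReal.ofReal_mul (by positivity),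
      ENNReal.ofReal_mul (by positivity), ENNReal.ofReal_natCast, ENNReal.ofReal_natCast,
      ENNReal.ofReal_ofNat]
    calc _ = (X.card : ENNReal) * (ENNReal.ofReal (ρ ^ n) * v) := by ring
      _ ≤ _ := key
      _ = _ := by ring
  have h4 := (ENNReal.mul_le_mul_iff_left hv0 hvt).mp h3
  exact (ENNReal.ofReal_le_ofReal_iff (by positivity)).mp h4

end Pool.Agent.H19.Kiss
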