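import Pool.Agent.H19.Kiss.Deform

set_option autoImplicit false

namespace Pool.Agent.H19.Kiss

open Filter Topology Finset

variable {E : Type*} [NormedAddCommGroup E] [InnerProductSpace ℝ E]

/-- First-order motions. -/
theorem firstOrder (X : Finset E) (h1 : ∀ x ∈ X, ‖x‖ = 1)
    (h2 : ∀ x ∈ X, ∀ y ∈ X, x ≠ y → inner ℝ x y ≤ (1 / 2 : ℝ)) (u : E → E)
    (hu : ∀ x ∈ X, ∀ y ∈ X, inner ℝ x y = (1 / 2 : ℝ) →
      0 < inner ℝ (u x) (y - (1 / 2 : ℝ) • x) + inner ℝ (u y) (x - (1 / 2 : ℝ) • y))
    (ε : ℝ) (hε : 0 < ε) :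
    ∃ f : E → E, (∀ x ∈ X, ‖f x‖ = 1 ∧ ‖f x - x‖ < ε) ∧
      ∀ x ∈ X, ∀ y ∈ X, x ≠ y → inner ℝ (f x) (f y) < (1 / 2 : ℝ) := by
  refine deform X h1 h2 (fun x t => x - t • u x) ?_ ?_ ε hε
  · intro x hx
    refine tendsto_nhdsWithin_of_tendsto_nhds ?_
    have : Continuous (fun t : ℝ => x - t • u x) := by fun_prop
    simpa using this.tendsto 0
  · intro x hx y hy hxy hxy2
    have hpos := hu x hx y hy hxy2
    set a := inner ℝ (u x) y with ha
    set b := inner ℝ (u y) x with hb
    set p := inner ℝ (u x) x with hp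
    set q := inner ℝ (u y) y with hq
    set m := inner ℝ (u x) (u y) with hm
    have hx2 : ‖x‖ ^ 2 = 1 := by rw [h1 x hx, one_pow]
    have hy2 : ‖y‖ ^ 2 = 1 := by rw [h1 y hy, one_pow]
    have hpos' : 0 < a + b - (p + q) / 2 := by
      rw [inner_sub_right, inner_sub_right, real_inner_smul_right, real_inner_smul_right] at hpos
      rw [← ha, ← hb, ← hp, ← hq] at hpos
      linarith
    have e1 : ∀ t : ℝ, inner ℝ (x - t • u x) (y - t • u y) = 1 / 2 - t * (a + b) + t ^ 2 * m := by
      intro t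
      rw [inner_sub_left, inner_sub_right, inner_sub_right, real_inner_smul_left,
        real_inner_smul_right, real_inner_smul_left, real_inner_smul_right, hxy2,
        real_inner_comm (u y) x]
      rw [← ha, ← hb, ← hm]
      ring
    have e2 : ∀ t : ℝ, ‖x - t • u x‖ ^ 2 = 1 - 2 * t * p + t ^ 2 * ‖u x‖ ^ 2 := by
      intro t
      rw [norm_sub_sq_real, hx2, real_inner_smul_right, norm_smul, real_inner_comm (u x) x,
        mul_pow, Real.norm_eq_abs, sq_abs, ← hp]
      ring
    have e3 : ∀ t : ℝ, ‖y - t • u y‖ ^ 2 = 1 - 2 * t * q + t ^ 2 * ‖u y‖ ^ 2 := by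
      intro t
      rw [norm_sub_sq_real, hy2, real_inner_smul_right, norm_smul, real_inner_comm (u y) y,
        mul_pow, Real.norm_eq_abs, sq_abs, ← hq]
      ring
    set A := ‖u x‖ ^ 2
    set B := ‖u y‖ ^ 2
    have hA : 0 < 4 * (a + b) - 2 * (p + q) := by linarith
    have hG : Tendsto (fun t : ℝ => 4 * (a + b) - 2 * (p + q) +
        (t * (A + B + 4 * p * q - 4 * (a + b) ^ 2 - 4 * m) +
          t ^ 2 * (-2 * p * B - 2 * q * A + 8 * (a + b) * m) + t ^ 3 * (A * B - 4 * m ^ 2)))
        (𝓝[>] 0) (𝓝 (4 * (a + b) - 2 * (p + q))) := by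
      refine tendsto_nhdsWithin_of_tendsto_nhds ?_
      have : Continuous (fun t : ℝ => 4 * (a + b) - 2 * (p + q) +
        (t * (A + B + 4 * p * q - 4 * (a + b) ^ 2 - 4 * m) +
          t ^ 2 * (-2 * p * B - 2 * q * A + 8 * (a + b) * m) + t ^ 3 * (A * B - 4 * m ^ 2))) := by
        fun_prop
      simpa using this.tendsto 0
    filter_upwards [hG.eventually_const_lt hA, self_mem_nhdsWithin] with t ht ht0
    have ht0' : 0 < t := ht0
    rw [e1, e2, e3, ← sub_pos]
    have : (1 - 2 * t * p + t ^ 2 * A) * (1 - 2 * t * q + t ^ 2 * B) -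
        (2 * (1 / 2 - t * (a + b) + t ^ 2 * m)) ^ 2 =
        t * (4 * (a + b) - 2 * (p + q) +
        (t * (A + B + 4 * p * q - 4 * (a + b) ^ 2 - 4 * m) +
          t ^ 2 * (-2 * p * B - 2 * q * A + 8 * (a + b) * m) + t ^ 3 * (A * B - 4 * m ^ 2))) := by
      ring
    rw [this]
    positivity

/-- A kissing configuration without equilibrium stress can be made contact-free. -/
theorem stressFree [CompleteSpace E] (X : Finset E) (h1 : ∀ x ∈ X, ‖x‖ = 1)
    (h2 : ∀ x ∈ X, ∀ y ∈ X, x ≠ y → inner ℝ x y ≤ (1 / 2 : ℝ))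
    (hS : ∀ w : E → E → ℝ, (∀ x y, 0 ≤ w x y) → (∀ x y, w x y = w y x) →
      (∀ x ∈ X, ∑ y ∈ X with inner ℝ x y = (1 / 2 : ℝ), w x y • ((2 : ℝ) • y - x) = 0) →
      ∀ x ∈ X, ∀ y ∈ X, inner ℝ x y = (1 / 2 : ℝ) → w x y = 0)
    (ε : ℝ) (hε : 0 < ε) :
    ∃ f : E → E, (∀ x ∈ X, ‖f x‖ = 1 ∧ ‖f x - x‖ < ε) ∧
      ∀ x ∈ X, ∀ y ∈ X, x ≠ y → inner ℝ (f x) (f y) < (1 / 2 : ℝ) := by
  classical
  set P : Finset (E × E) := (X ×ˢ X).filter (fun p => inner ℝ p.1 p.2 = (1 / 2 : ℝ)) with hP
  have hPmem : ∀ p, p ∈ P ↔ (p.1 ∈ X ∧ p.2 ∈ X) ∧ inner ℝ p.1 p.2 = (1 / 2 : ℝ) := by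
    intro p
    rw [hP, mem_filter, mem_product]
  -- rows of the rigidity matrix, indexed by E (extended by zero): use functions `X → E`
  set ι : E → E → (X → E) := fun x e => fun z => if (z : E) = x then e else 0 with hι
  set r : E × E → (X → E) := fun p =>
    ι p.1 (p.2 - (1 / 2 : ℝ) • p.1) + ι p.2 (p.1 - (1 / 2 : ℝ) • p.2) with hr
  set L : (P → ℝ) → (X → E) := fun w => ∑ p, w p • r p with hL
  have hLlin : IsLinearMap ℝ L := by
    constructor
    · intro w w'
      simp only [hL, Pi.add_apply, add_smul, sum_add_distrib]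
    · intro c w
      simp only [hL, Pi.smul_apply, smul_eq_mul, mul_smul, smul_sum]
  have hLcont : Continuous L := by
    rw [hL]
    fun_prop
  have hK0 : (0 : X → E) ∉ L '' stdSimplex ℝ P := by
    rintro ⟨w, ⟨hw0, hw1⟩, hLw⟩
    set w' : E × E → ℝ := fun p => if h : p ∈ P then w ⟨p, h⟩ else 0 with hw'
    have hw'0 : ∀ p, 0 ≤ w' p := by
      intro p
      rw [hw']
      simp only
      split_ifs
      · exact hw0 _
      · exact le_rfl
    have hsum : ∑ p ∈ P, w' p • r p = 0 := by
      rw [← hLw, hL]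
      simp only
      rw [← sum_coe_sort P (fun p => w' p • r p)]
      refine sum_congr rfl fun p _ => ?_
      rw [hw']
      simp only
      rw [dif_pos p.2]
    have hsum1 : ∑ p ∈ P, w' p = 1 := by
      rw [← hw1, ← sum_coe_sort P w']
      refine sum_congr rfl fun p _ => ?_
      rw [hw']
      simp only
      rw [dif_pos p.2]
    have hW := hS (fun x y => w' (x, y) + w' (y, x)) (fun x y => add_nonneg (hw'0 _) (hw'0 _))
      (fun x y => add_comm _ _) ?_
    · -- all weights vanish
      have hz : ∀ p ∈ P, w' p = 0 := by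
        intro p hp
        obtain ⟨⟨hp1, hp2⟩, hp3⟩ := (hPmem p).1 hp
        have := hW p.1 hp1 p.2 hp2 hp3
        have h3 := hw'0 (p.1, p.2)
        have h4 := hw'0 (p.2, p.1)
        have h5 : w' (p.1, p.2) = 0 := by linarith
        exact h5
      rw [sum_congr rfl hz] at hsum1
      simp at hsum1
    · intro x hx
      have hev := congrFun hsum ⟨x, hx⟩
      rw [Finset.sum_apply] at hev
      simp only [Pi.smul_apply, Pi.zero_apply] at hev
      have h3 : ∑ p ∈ P, w' p • r p ⟨x, hx⟩ =
          ∑ y ∈ X with inner ℝ x y = (1 / 2 : ℝ), (w' (x, y) + w' (y, x)) • (y - (1 / 2 : ℝ) • x) := by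
        have h4 : ∀ p ∈ P, w' p • r p ⟨x, hx⟩ =
            (if p.1 = x then w' p • (p.2 - (1 / 2 : ℝ) • p.1) else 0) +
            (if p.2 = x then w' p • (p.1 - (1 / 2 : ℝ) • p.2) else 0) := by
          intro p _
          rw [hr]
          simp only [hι, Pi.add_apply, smul_add]
          congr 1
          · by_cases h : x = p.1
            · rw [if_pos h, if_pos h.symm]
            · rw [if_neg h, if_neg (Ne.symm h), smul_zero]
          · by_cases h : x = p.2
            · rw [if_pos h, if_pos h.symm]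
            · rw [if_neg h, if_neg (Ne.symm h), smul_zero]
        rw [sum_congr rfl h4, sum_add_distrib]
        simp_rw [add_smul]
        rw [sum_add_distrib]
        congr 1
        · rw [← sum_filter]
          refine sum_nbij' (fun p => p.2) (fun y => (x, y)) ?_ ?_ ?_ ?_ ?_
          · intro p hp
            rw [mem_filter, hPmem] at hp
            rw [mem_filter]
            exact ⟨hp.1.1.2, by rw [← hp.2]; exact hp.1.2⟩
          · intro y hy
            rw [mem_filter] at hy
            rw [mem_filter, hPmem]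
            exact ⟨⟨⟨hx, hy.1⟩, hy.2⟩, rfl⟩
          · intro p hp
            rw [mem_filter] at hp
            rw [← hp.2]
          · intro y _
            rfl
          · intro p hp
            rw [mem_filter] at hp
            rw [← hp.2]
        · rw [← sum_filter]
          refine sum_nbij' (fun p => p.1) (fun y => (y, x)) ?_ ?_ ?_ ?_ ?_
          · intro p hp
            rw [mem_filter, hPmem] at hp
            rw [mem_filter]
            exact ⟨hp.1.1.1, by rw [← hp.2, real_inner_comm]; exact hp.1.2⟩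
          · intro y hy
            rw [mem_filter] at hy
            rw [mem_filter, hPmem]
            exact ⟨⟨⟨hy.1, hx⟩, by rw [real_inner_comm]; exact hy.2⟩, rfl⟩
          · intro p hp
            rw [mem_filter] at hp
            rw [← hp.2]
          · intro y _
            rfl
          · intro p hp
            rw [mem_filter] at hp
            rw [← hp.2]
      rw [h3] at hev
      have h5 : ∀ y ∈ X.filter (fun y => inner ℝ x y = (1 / 2 : ℝ)),
          (w' (x, y) + w' (y, x)) • ((2 : ℝ) • y - x) =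
          (2 : ℝ) • ((w' (x, y) + w' (y, x)) • (y - (1 / 2 : ℝ) • x)) := by
        intro y _
        module
      rw [sum_congr rfl h5, ← smul_sum, hev, smul_zero]
  have hconv : Convex ℝ (L '' stdSimplex ℝ P) := (convex_stdSimplex ℝ P).is_linear_image hLlin
  have hclosed : IsClosed (L '' stdSimplex ℝ P) :=
    ((isCompact_stdSimplex ℝ P).image hLcont).isClosed
  obtain ⟨φ, c, hφ0, hφ⟩ := geometric_hahn_banach_point_closed hconv hclosed hK0
  rw [map_zero] at hφ0
  have hφr : ∀ p ∈ P, 0 < φ (r p) := by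
    intro p hp
    have hmem : r p ∈ L '' stdSimplex ℝ P := by
      refine ⟨Pi.single ⟨p, hp⟩ 1, single_mem_stdSimplex ℝ _, ?_⟩
      rw [hL]
      simp only
      rw [sum_eq_single (⟨p, hp⟩ : P)]
      · simp
      · intro b _ hb
        rw [Pi.single_eq_of_ne hb, zero_smul]
      · intro h
        exact absurd (mem_univ _) h
    exact hφ0.trans (hφ _ hmem)
  -- Riesz representation
  set ψ : E → (E →L[ℝ] ℝ) := fun x => if h : x ∈ X then
    φ.comp (ContinuousLinearMap.single ℝ (fun _ : X => E) ⟨x, h⟩) else 0 with hψ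
  set u : E → E := fun x => (InnerProductSpace.toDual ℝ E).symm (ψ x) with hu
  have hu1 : ∀ x ∈ X, ∀ e, inner ℝ (u x) e = φ (ι x e) := by
    intro x hx e
    rw [hu]
    simp only
    rw [InnerProductSpace.toDual_symm_apply, hψ]
    simp only
    rw [dif_pos hx]
    simp only [ContinuousLinearMap.comp_apply]
    congr 1
    ext z
    rw [hι]
    simp only
    rw [ContinuousLinearMap.single_apply]
    by_cases hz : z = ⟨x, hx⟩
    · subst hz
      simp
    · have : (z : E) ≠ x := fun h => hz (Subtype.ext h)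
      rw [if_neg this, Pi.single_eq_of_ne hz]
  refine firstOrder X h1 h2 u ?_ ε hε
  intro x hx y hy hxy
  rw [hu1 x hx, hu1 y hy, ← map_add]
  exact hφr (x, y) ((hPmem _).2 ⟨⟨hx, hy⟩, hxy⟩)

end Pool.Agent.H19.Kiss
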